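import Pool.Agent.N557.QW.Stm

/-!
# QWP/LKM: the von Neumann algebra of a subgroup
-/

set_option autoImplicit false

namespace Pool.Agent.N31.QWP

open Pool.Agent.H494R3.GT Pool.Agent.N557.QW

noncomputable section

variable {G : Type} [Group G]

lemma mem_LK {K : Subgroup G} {x : L2 G →L[ℂ] L2 G} :
    x ∈ LK K ↔ x ∈ LG G ∧ ∀ c : G, MM (rc K c) * x = x * MM (rc K c) := by
  rw [mem_LG]
  change x ∈ Set.centralizer _ ↔ _
  rw [Set.mem_centralizer_iff]
  constructor
  · intro h
    exact ⟨fun g => h _ (Or.inl (Or.inl ⟨g, rfl⟩)), fun c => h _ (Or.inl (Or.inr ⟨c, rfl⟩))⟩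
  · rintro ⟨h1, h2⟩ m ((⟨g, rfl⟩ | ⟨c, rfl⟩) | hm)
    · exact h1 g
    · exact h2 c
    · rcases hm with ⟨g, hg⟩ | ⟨c, hc⟩
      · have : m = rgt g⁻¹ := by
          rw [← star_rgt, hg, star_star]
        rw [this]; exact h1 _
      · have : m = MM (rc K c) := by
          rw [← star_MM]
          change m = star ((fun c : G => MM (rc K c)) c)
          rw [hc, star_star]
        rw [this]; exact h2 _

lemma inner_MM {P : Type} (A : Set P) (v w : L2 P) :
    inner ℂ v (MM A w) = inner ℂ (MM A v) w := by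
  conv_lhs => rw [← star_MM A]
  rw [ContinuousLinearMap.star_eq_adjoint, ContinuousLinearMap.adjoint_inner_right]

lemma mem_LK_iff {K : Subgroup G} {x : L2 G →L[ℂ] L2 G} :
    x ∈ LK K ↔ x ∈ LG G ∧ ∀ g ∉ K, cf x g = 0 := by
  rw [mem_LK]
  refine and_congr_right fun hx => ?_
  rw [mem_LG_iff] at hx
  constructor
  · intro h g hg
    have h1 : (1 : G) ∈ rc K 1 := by
      change (1 : G) * 1⁻¹ ∈ K
      simp [K.one_mem]
    have h2 : g ∉ rc K 1 := by
      change ¬ (g * 1⁻¹ ∈ K)
      simpa using hg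
    have h3 := congrArg (fun y : L2 G →L[ℂ] L2 G => inner ℂ (dl g) (y (dl 1))) (h 1)
    simp only [mul_ap] at h3
    rw [inner_MM, MM_dl_notMem h2, MM_dl_mem h1, inner_zero_left] at h3
    exact h3.symm
  · intro h c
    apply op_ext_inner
    intro t s
    rw [mul_ap, mul_ap, inner_MM]
    by_cases ht : t ∈ rc K c
    · rw [MM_dl_mem ht]
      by_cases hs : s ∈ rc K c
      · rw [MM_dl_mem hs]
      · rw [MM_dl_notMem hs, map_zero, inner_zero_right, hx]
        refine h _ fun h1 => hs ?_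
        change s * c⁻¹ ∈ K
        have h2 := K.mul_mem (K.inv_mem h1) ht
        have h3 : (t * s⁻¹)⁻¹ * (t * c⁻¹) = s * c⁻¹ := by group
        rwa [h3] at h2
    · rw [MM_dl_notMem ht, inner_zero_left]
      by_cases hs : s ∈ rc K c
      · rw [MM_dl_mem hs, hx]
        symm
        refine h _ fun h1 => ht ?_
        change t * c⁻¹ ∈ K
        have h2 := K.mul_mem h1 hs
        have h3 : (t * s⁻¹) * (s * c⁻¹) = t * c⁻¹ := by group
        rwa [h3] at h2
      · rw [MM_dl_notMem hs, map_zero, inner_zero_right]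

/-- the isometry `dl p ↦ dl (f p)` -/
def JJ {P Q : Type} {f : P → Q} (hf : Function.Injective f) : L2 P →L[ℂ] L2 Q :=
  ((dl_orthonormal hf).orthogonalFamily.linearIsometry).toContinuousLinearMap

lemma JJ_dl {P Q : Type} {f : P → Q} (hf : Function.Injective f) (x : P) :
    JJ hf (dl x) = dl (f x) := by
  classical
  simp only [JJ, dl]
  simp

theorem t_lkm : S_LKM := by
  intro G _ K
  refine ⟨fun x => mem_LK_iff, fun x hx => ?_⟩
  have hx1 := (mem_LK_iff.1 hx).1
  rw [mem_LG_iff] at hx1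
  have hj : Function.Injective (fun k : K => (k : G)) := Subtype.val_injective
  set y : L2 K →L[ℂ] L2 K := ContinuousLinearMap.adjoint (JJ hj) ∘L x ∘L JJ hj with hy
  have hy1 : ∀ s t : K, inner ℂ (dl t) (y (dl s)) = cf x ((t : G) * (s : G)⁻¹) := by
    intro s t
    rw [hy, ContinuousLinearMap.comp_apply, ContinuousLinearMap.comp_apply,
      ContinuousLinearMap.adjoint_inner_right, JJ_dl, JJ_dl, hx1]
  have hy2 : ∀ k : K, cf y k = cf x k := by
    intro k
    have := hy1 1 k
    rw [Subgroup.coe_one, inv_one, mul_one] at this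
    exact this
  refine ⟨y, ?_, hy2⟩
  rw [mem_LG_iff]
  intro s t
  rw [hy1, hy2]
  rfl

end

end Pool.Agent.N31.QWP
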